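import Pool.Agent.W689.Gd.NotLp

/-!
# A new Banach space whose isometry class is `G_δ`

The space is `X = ℓ² ⊕_∞ ℝ`.  A pseudonorm `μ` with `X_μ` infinite-dimensional codes `X` if and only if
it lies in the closed set of pseudonorms of the form `max (h, |φ|)`, `h` a pseudonorm with the parallelogram
law and `φ` additive, and, for every natural number `N`, not in the closed set of those that can be written
in this form with `|φ| ≤ N h`.
-/

set_option autoImplicit false

open MeasureTheory Set

namespace Pool.Agent.Results.MP_ab3705_an.HilbertPlusLine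

open Pool.Agent.W689.Gd

theorem sep_l2 : TopologicalSpace.SeparableSpace (lp (fun _ : ℕ => ℝ) 2) := by
  have h1 : TopologicalSpace.IsSeparable (closure
      ((Submodule.span ℝ (range bs) : Submodule ℝ (lp (fun _ : ℕ => ℝ) 2)) :
        Set (lp (fun _ : ℕ => ℝ) 2))) :=
    ((countable_range bs).isSeparable.span (R := ℝ)).closure
  have h2 : closure ((Submodule.span ℝ (range bs) : Submodule ℝ (lp (fun _ : ℕ => ℝ) 2)) :
      Set (lp (fun _ : ℕ => ℝ) 2)) = univ := by
    refine eq_univ_of_forall fun x => ?_
    have hs : HasSum (fun n => lp.single 2 n (x n)) x := lp.hasSum_single (by norm_num) x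
    refine mem_closure_of_tendsto hs (Filter.Eventually.of_forall fun s => ?_)
    refine Submodule.sum_mem _ fun n _ => ?_
    have : (lp.single 2 n (x n) : lp (fun _ : ℕ => ℝ) 2) = (x n : ℝ) • bs n := by
      unfold bs
      rw [← lp.single_smul]; simp
    rw [this]
    exact Submodule.smul_mem _ _ (Submodule.subset_span (mem_range_self n))
  rw [h2] at h1
  exact TopologicalSpace.isSeparable_univ_iff.1 h1

/-- There is an infinite-dimensional separable real Banach space `X`, isometric neither to `L_p[0,1]`
for any `p ∈ [1, ∞)` nor to the Gurarii space, whose isometry class is a `G_δ` set both in `P_∞`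
and in `B`. -/
theorem result : ∃ (X : Type) (_ : NormedAddCommGroup X) (_ : NormedSpace ℝ X),
    CompleteSpace X ∧ TopologicalSpace.SeparableSpace X ∧ ¬ FiniteDimensional ℝ X ∧
    (∀ (p : ENNReal) [Fact (1 ≤ p)], p ≠ ⊤ →
      IsEmpty (X ≃ₗᵢ[ℝ] Lp ℝ p (volume.restrict (Icc (0 : ℝ) 1)))) ∧
    ¬ IsGurarii X ∧
    IsGδ (isometryClass PInf X) ∧ IsGδ (isometryClass BN X) := by
  haveI := sep_l2
  exact ⟨X0, inferInstance, inferInstance, inferInstance, inferInstance, not_finDim_X0,
    fun p _ hp => not_lp p hp, not_gurarii, isGdelta_class PInf subset_rfl,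
    isGdelta_class BN fun _ h => h.1⟩

end Pool.Agent.Results.MP_ab3705_an.HilbertPlusLine
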